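import Pool.Agent.N89.HX.Stm

/-!
# Project HG (helper89): Hilbert's irreducibility theorem for arbitrary Galois groups, uniformly over
the rational points of a semiabelian variety

`K` is a number field, `G = E_1 × ⋯ × E_r × G_m^s`, `h(t; X) = ∑_i h_i(t) X^i` a polynomial of degree
`e` over `K(t) = K(t_1, …, t_k)` whose Galois group over `K(t)` and over `ℂ(t)` is `𝒢`, the `h_i`
homogeneous of the same degree. For 100 % of the maps `φ_c : G → ℙ^(k-1)`, given by members of linear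
systems without base points, ALL the polynomials `h(φ_c(P); X)`, `P ∈ G(K)`, have the Galois group `𝒢`
over `K`. Definitions and statements of the tasks.
-/

set_option autoImplicit false

namespace Pool.Agent.N89.HG

open Polynomial NumberField Pool.Agent.H901R3.MS Pool.Agent.N89.GS Pool.Agent.N89.BD Pool.Agent.N89.HX

/-- the coefficients of the polynomial `h(t; X)`, mapped by `φ` -/
noncomputable def ev {O A : Type} [CommRing O] [CommRing A] (φ : O →+* A) {k e : ℕ}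
    (h : Fin (e + 1) → MvPolynomial (Fin k) O) (t : Fin k → A) : Fin (e + 1) → A :=
  fun i => MvPolynomial.eval₂ φ t (h i)

/-- the line `y + x v` -/
noncomputable def pt {A : Type} [CommRing A] {k : ℕ} (y v : Fin k → A) : Fin k → A[X] :=
  fun j => C (y j) + C (v j) * X

/-- the Galois group of the polynomial `∑ f i X^i` of degree `e` over `K` is `𝒢`, for a suitable
numbering of the roots -/
def GalIs {K : Type} [Field K] {e : ℕ} (f : Fin (e + 1) → K) (𝒢 : Subgroup (Equiv.Perm (Fin e))) :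
    Prop :=
  ∃ x : Fin e → AlgebraicClosure K, Roots (algebraMap K (AlgebraicClosure K)) f x ∧
    ∀ σ : Equiv.Perm (Fin e), σ ∈ 𝒢 ↔
      ∃ τ : AlgebraicClosure K ≃ₐ[K] AlgebraicClosure K, ∀ i, τ (x i) = x (σ i)

/-- the monic polynomial of degree `m` with the coefficients `R i (t, ω)` -/
noncomputable def rg {O A : Type} [CommRing O] [CommRing A] (φ : O →+* A) {k e m : ℕ}
    (R : Fin m → MvPolynomial (Fin k ⊕ Fin e) O) (t : Fin k → A) (ω : Fin e → A) : A[X] :=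
  X ^ m + ∑ i : Fin m, C (MvPolynomial.eval₂ φ (Sum.elim t ω) (R i)) * X ^ (i : ℕ)

/-- `W` is an enumeration of the roots of `mono (h(t))` (these are the `h_e(t) x`, `x` a root of
`h(t; X)`, if `h_e(t) ≠ 0`), and `rg R t ω` is the polynomial with the roots `m ∑ ω_i W_(τ i)`,
`τ ∈ 𝒢` -/
def AdmR {O M : Type} [CommRing O] [Field M] (φ : O →+* M) {k e : ℕ}
    (h : Fin (e + 1) → MvPolynomial (Fin k) O) (𝒢 : Subgroup (Equiv.Perm (Fin e))) [Fintype 𝒢]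
    (m : ℕ) (R : Fin (Fintype.card 𝒢) → MvPolynomial (Fin k ⊕ Fin e) O) (t : Fin k → M)
    (W : Fin e → M) : Prop :=
  mono (ev φ h t) = ∏ i, (X - C (W i)) ∧ ∀ ω : Fin e → M,
    rg φ R t ω = ∏ τ : 𝒢, (X - C (∑ i, ω i * ((m : M) * W ((τ : Equiv.Perm (Fin e)) i))))

/-- the `𝒢`-resolvent of `h` -/
structure RG {O : Type} [CommRing O] {k e : ℕ} (h : Fin (e + 1) → MvPolynomial (Fin k) O)
    (𝒢 : Subgroup (Equiv.Perm (Fin e))) [Fintype 𝒢] where
  m : ℕ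
  m_ne : m ≠ 0
  R : Fin (Fintype.card 𝒢) → MvPolynomial (Fin k ⊕ Fin e) O
  spec : ∀ (M : Type) [Field M] [IsAlgClosed M] (φ : O →+* M) (t : Fin k → M),
    ∃ W : Fin e → M, AdmR φ h 𝒢 m R t W

/-- `W` is an admissible enumeration of the roots of `mono (h(t))` -/
def Adm {O M : Type} [CommRing O] [Field M] (φ : O →+* M) {k e : ℕ}
    {h : Fin (e + 1) → MvPolynomial (Fin k) O} {𝒢 : Subgroup (Equiv.Perm (Fin e))} [Fintype 𝒢]
    (R : RG h 𝒢) (t : Fin k → M) (W : Fin e → M) : Prop := AdmR φ h 𝒢 R.m R.R t W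

/-- the Frobenius acts like `σ` on the roots, in an admissible numbering, of `h(t; X)`, `t ∈ F^k`,
`F` a finite field -/
def HasTypeG {O F : Type} (Ω : Type) [CommRing O] [Field F] [Fintype F] [Field Ω] [Algebra F Ω]
    (φ : O →+* F) {k e : ℕ} {h : Fin (e + 1) → MvPolynomial (Fin k) O}
    {𝒢 : Subgroup (Equiv.Perm (Fin e))} [Fintype 𝒢] (R : RG h 𝒢) (t : Fin k → F)
    (σ : Equiv.Perm (Fin e)) : Prop :=
  ∃ x : Fin e → Ω, Roots (algebraMap F Ω) (ev φ h t) x ∧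
    Adm ((algebraMap F Ω).comp φ) R (fun j => algebraMap F Ω (t j))
      (fun i => algebraMap F Ω (ev φ h t (Fin.last e)) * x i) ∧
    ∀ i, x i ^ Fintype.card F = x (σ i)

/-- `D` is (the last coefficient times) the discriminant of `mono f` -/
def IsDisc {e : ℕ} (D : MvPolynomial (Fin (e + 1)) ℤ) : Prop :=
  ∀ (M : Type) [Field M] (f : Fin (e + 1) → M) (W : Fin e → M), mono f = ∏ i, (X - C (W i)) →
    (MvPolynomial.aeval f D = 0 ↔ (f (Fin.last e) = 0 ∨ ¬ Function.Injective W))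

/-! ### The tasks -/

/-- EXR: the existence of the `𝒢`-resolvent, if the Galois group of `h` over `K(t)` lies in `𝒢` -/
def S_EXR : Prop := ∀ (K : Type) [Field K] [NumberField K] (k e : ℕ)
  (h : Fin (e + 1) → MvPolynomial (Fin k) (𝓞 K)) (𝒢 : Subgroup (Equiv.Perm (Fin e))) [Fintype 𝒢]
  (x : Fin e → AlgebraicClosure (FractionRing (MvPolynomial (Fin k) (𝓞 K)))),
  Roots (algebraMap (FractionRing (MvPolynomial (Fin k) (𝓞 K)))
    (AlgebraicClosure (FractionRing (MvPolynomial (Fin k) (𝓞 K)))))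
    (fun i => algebraMap (MvPolynomial (Fin k) (𝓞 K))
      (FractionRing (MvPolynomial (Fin k) (𝓞 K))) (h i)) x →
  (∀ τ : AlgebraicClosure (FractionRing (MvPolynomial (Fin k) (𝓞 K)))
      ≃ₐ[FractionRing (MvPolynomial (Fin k) (𝓞 K))]
      AlgebraicClosure (FractionRing (MvPolynomial (Fin k) (𝓞 K))),
    ∃ σ ∈ 𝒢, ∀ i, τ (x i) = x (σ i)) → Nonempty (RG h 𝒢)

/-- DSC: the discriminant -/
def S_DSC : Prop := ∀ e : ℕ, ∃ D : MvPolynomial (Fin (e + 1)) ℤ, IsDisc D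

/-- GEOG: if all of `𝒢` is realised over `ℂ(x)` on a line, the resolvent is irreducible on this line,
and the discriminant is not zero -/
def S_GEOG : Prop := ∀ (O : Type) [CommRing O] (k e : ℕ) (h : Fin (e + 1) → MvPolynomial (Fin k) O)
  (𝒢 : Subgroup (Equiv.Perm (Fin e))) [Fintype 𝒢] (R : RG h 𝒢) (D : MvPolynomial (Fin (e + 1)) ℤ)
  (φ : O →+* ℂ) (y v : Fin k → ℂ) (x : Fin e → AlgebraicClosure (RatFunc ℂ)), IsDisc D →
  Roots (algebraMap (RatFunc ℂ) (AlgebraicClosure (RatFunc ℂ)))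
    (fun i => algebraMap ℂ[X] (RatFunc ℂ) (ev ((C : ℂ →+* ℂ[X]).comp φ) h (pt y v) i)) x →
  (∀ σ ∈ 𝒢, ∃ τ : AlgebraicClosure (RatFunc ℂ) ≃ₐ[RatFunc ℂ] AlgebraicClosure (RatFunc ℂ),
    ∀ i, τ (x i) = x (σ i)) →
  MvPolynomial.aeval (ev ((C : ℂ →+* ℂ[X]).comp φ) h (pt y v)) D ≠ 0 ∧
  ∃ ω : Fin e → ℂ, Irreducible (rg ((C : ℂ →+* ℂ[X]).comp φ) R.R (pt y v) (fun i => C (ω i)))

/-- TRG: transfer to large characteristic -/
def S_TRG : Prop := ∀ (K : Type) [Field K] [NumberField K] (k e : ℕ)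
  (h : Fin (e + 1) → MvPolynomial (Fin k) (𝓞 K)) (𝒢 : Subgroup (Equiv.Perm (Fin e))) [Fintype 𝒢]
  (R : RG h 𝒢) (D : MvPolynomial (Fin (e + 1)) ℤ) (φ₀ : 𝓞 K →+* ℂ) (y v : Fin k → ℂ)
  (ω : Fin e → ℂ), MvPolynomial.aeval (ev ((C : ℂ →+* ℂ[X]).comp φ₀) h (pt y v)) D ≠ 0 →
  Irreducible (rg ((C : ℂ →+* ℂ[X]).comp φ₀) R.R (pt y v) (fun i => C (ω i))) →
  ∃ p₁ : ℕ, ∀ p : ℕ, p.Prime → p₁ ≤ p → ∀ (Ω : Type) [Field Ω] [IsAlgClosed Ω] [CharP Ω p]
    (φ : 𝓞 K →+* Ω), ∃ (y v : Fin k → Ω) (ω : Fin e → Ω),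
      MvPolynomial.aeval (ev ((C : Ω →+* Polynomial Ω).comp φ) h (pt y v)) D ≠ 0 ∧
      Irreducible (rg ((C : Ω →+* Polynomial Ω).comp φ) R.R (pt y v) (fun i => C (ω i)))

/-- ONEG: the density theorem on a line -/
def S_ONEG : Prop := ∀ (O : Type) [CommRing O] (k e : ℕ) (h : Fin (e + 1) → MvPolynomial (Fin k) O)
  (𝒢 : Subgroup (Equiv.Perm (Fin e))) [Fintype 𝒢] (R : RG h 𝒢) (D : MvPolynomial (Fin (e + 1)) ℤ),
  IsDisc D → ∃ C₀ : ℕ, ∀ (F Ω : Type) [Field F] [Fintype F] [Field Ω] [IsAlgClosed Ω] [Algebra F Ω]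
  [Algebra.IsAlgebraic F Ω] (φ : O →+* F) (y v : Fin k → F) (σ : Equiv.Perm (Fin e))
  (ω : Fin e → Ω), C₀ ≤ ringChar F → σ ∈ 𝒢 → (∀ i, ω i ^ Fintype.card F = ω (σ i)) →
  MvPolynomial.aeval (ev ((C : F →+* F[X]).comp φ) h (pt y v)) D ≠ 0 →
  Irreducible (rg ((C : Ω →+* Polynomial Ω).comp ((algebraMap F Ω).comp φ)) R.R
    (pt (fun j => algebraMap F Ω (y j)) (fun j => algebraMap F Ω (v j))) (fun i => C (ω i))) →
  (Fintype.card F : ℝ) ≤ (Fintype.card 𝒢 : ℝ) *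
    (({x : F | HasTypeG Ω φ R (fun j => y j + v j * x) σ}.ncard : ℕ) : ℝ) +
      C₀ * √(Fintype.card F : ℝ)

/-- FCHG: the density theorem for all `t` -/
def S_FCHG : Prop := ∀ (O : Type) [CommRing O] (k e : ℕ) (h : Fin (e + 1) → MvPolynomial (Fin k) O)
  (𝒢 : Subgroup (Equiv.Perm (Fin e))) [Fintype 𝒢] (R : RG h 𝒢) (D : MvPolynomial (Fin (e + 1)) ℤ),
  IsDisc D → ∃ q₀ : ℕ, ∀ (F Ω : Type) [Field F] [Fintype F] [Field Ω] [IsAlgClosed Ω] [Algebra F Ω]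
  [Algebra.IsAlgebraic F Ω] (φ : O →+* F), q₀ ≤ ringChar F →
  (∃ (y v : Fin k → Ω) (ω : Fin e → Ω),
    MvPolynomial.aeval (ev ((C : Ω →+* Polynomial Ω).comp ((algebraMap F Ω).comp φ)) h (pt y v)) D ≠ 0 ∧
    Irreducible (rg ((C : Ω →+* Polynomial Ω).comp ((algebraMap F Ω).comp φ)) R.R (pt y v)
      (fun i => C (ω i)))) →
  ∀ σ ∈ 𝒢, Fintype.card F ^ k ≤
    2 * Fintype.card 𝒢 * {t : Fin k → F | HasTypeG Ω φ R t σ}.ncard

/-- FRBG: the Frobenius elements of the Galois group -/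
def S_FRBG : Prop := ∀ (K : Type) [Field K] [NumberField K] (F : Type) [Field F] [Fintype F]
  (w : Place K F) (φ : 𝓞 K →+* F), Function.Surjective φ →
  (∀ x : 𝓞 K, (x : K) ∈ w.A ∧ w.r (x : K) = φ x) →
  ∀ (Ω : Type) [Field Ω] [IsAlgClosed Ω] [Algebra F Ω] (k e : ℕ)
  (h : Fin (e + 1) → MvPolynomial (Fin k) (𝓞 K)) (𝒢 : Subgroup (Equiv.Perm (Fin e))) [Fintype 𝒢]
  (R : RG h 𝒢) (t : Fin k → K) (t' : Fin k → F) (σ : Equiv.Perm (Fin e)), (R.m : F) ≠ 0 →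
  (∀ j, t j ∈ w.A ∧ w.r (t j) = t' j) → HasTypeG Ω φ R t' σ →
  ∃ (x : Fin e → AlgebraicClosure K) (τ : AlgebraicClosure K ≃ₐ[K] AlgebraicClosure K),
    Roots (algebraMap K (AlgebraicClosure K)) (ev (algebraMap (𝓞 K) K) h t) x ∧
    Adm ((algebraMap K (AlgebraicClosure K)).comp (algebraMap (𝓞 K) K)) R
      (fun j => algebraMap K (AlgebraicClosure K) (t j))
      (fun i => algebraMap K (AlgebraicClosure K)
        (ev (algebraMap (𝓞 K) K) h t (Fin.last e)) * x i) ∧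
    ∀ i, τ (x i) = x (σ i)

/-- GRPG: a polynomial whose Galois group contains all types of elements of `𝒢` (in admissible
numberings of the roots) has the Galois group `𝒢` -/
def S_GRPG : Prop := ∀ (K : Type) [Field K] [NumberField K] (k e : ℕ)
  (h : Fin (e + 1) → MvPolynomial (Fin k) (𝓞 K)) (𝒢 : Subgroup (Equiv.Perm (Fin e))) [Fintype 𝒢]
  (R : RG h 𝒢) (t : Fin k → K),
  (∀ σ ∈ 𝒢, ∃ (x : Fin e → AlgebraicClosure K)
    (τ : AlgebraicClosure K ≃ₐ[K] AlgebraicClosure K),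
    Roots (algebraMap K (AlgebraicClosure K)) (ev (algebraMap (𝓞 K) K) h t) x ∧
    Adm ((algebraMap K (AlgebraicClosure K)).comp (algebraMap (𝓞 K) K)) R
      (fun j => algebraMap K (AlgebraicClosure K) (t j))
      (fun i => algebraMap K (AlgebraicClosure K)
        (ev (algebraMap (𝓞 K) K) h t (Fin.last e)) * x i) ∧
    ∀ i, τ (x i) = x (σ i)) →
  GalIs (ev (algebraMap (𝓞 K) K) h t) 𝒢

/-- SCL: admissible numberings and scaling -/
def S_SCL : Prop := ∀ (O : Type) [CommRing O] (k e : ℕ) (h : Fin (e + 1) → MvPolynomial (Fin k) O)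
  (𝒢 : Subgroup (Equiv.Perm (Fin e))) [Fintype 𝒢] (R : RG h 𝒢) (D : ℕ),
  (∀ i, (h i).IsHomogeneous D) → ∀ (M : Type) [Field M] [IsAlgClosed M] [CharZero M] (φ : O →+* M)
  (t : Fin k → M) (W : Fin e → M) (c : M), c ≠ 0 → Function.Injective W → Adm φ R t W →
    Adm φ R (fun j => c * t j) (fun i => c ^ D * W i)

end Pool.Agent.N89.HG
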