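import Pool.Agent.N89.HG.Fin0
import Pool.Agent.N89.HL.Fin
import Pool.Agent.N441.HG.EXR
import Pool.Agent.N953.HG.DSC
import Pool.Agent.N595.HG.GEOG
import Pool.Agent.N433.HG.FCH
import Pool.Agent.N768.HG.GRPG
import Pool.Agent.N195.HG.SCL
import Pool.Agent.N42.HG.Trg
import Pool.Agent.N46.HG.FRBG
import Pool.Agent.N136.HG.ONEG

/-! Project HG (helper89): everything put together. -/

set_option autoImplicit false

namespace Pool.Agent.N89.HG

theorem finHG :
    type_of% (finHG' Pool.Agent.N441.HG.main Pool.Agent.N953.HG.main Pool.Agent.N595.HG.main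
      Pool.Agent.N42.HG.TRG.main
      (Pool.Agent.N433.HG.main Pool.Agent.N136.HG.ONEG.main) Pool.Agent.N46.HG.FRBG.main
      Pool.Agent.N195.HG.SCL.main Pool.Agent.N768.HG.GRPG.main) :=
  finHG' Pool.Agent.N441.HG.main Pool.Agent.N953.HG.main Pool.Agent.N595.HG.main
      Pool.Agent.N42.HG.TRG.main
      (Pool.Agent.N433.HG.main Pool.Agent.N136.HG.ONEG.main) Pool.Agent.N46.HG.FRBG.main
      Pool.Agent.N195.HG.SCL.main Pool.Agent.N768.HG.GRPG.main

end Pool.Agent.N89.HG
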