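import Pool.Agent.N89.HG.Asm

/-! Project HG (helper89): from the local types to the Galois group. -/

set_option autoImplicit false

namespace Pool.Agent.N89.HG

open MvPolynomial NumberField Pool.Agent.H901R3.MS Pool.Agent.W659 Pool.Agent.W659.SA
  Pool.Agent.N89.GS Pool.Agent.N89.BD Pool.Agent.N89.HX Pool.Agent.N89.HL WeierstrassCurve

/-- the member of the linear system -/
noncomputable def mb {O : Type} [CommRing O] {r s n : ℕ} (Φ : Fin (n + 1) → Pol O r s 0)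
    {ι : Fin (n + 1) → Type} [∀ i, Fintype (ι i)] (Λ : (i : Fin (n + 1)) → ι i → Pol O r s 0)
    (t : (Σ i, ι i) → O) (i : Fin (n + 1)) : Pol O r s 0 :=
  Φ i + ∑ x, C (t ⟨i, x⟩) * Λ i x

theorem mb_homog {O : Type} [CommRing O] {r s n : ℕ} (Φ : Fin (n + 1) → Pol O r s 0)
    {ι : Fin (n + 1) → Type} [∀ i, Fintype (ι i)] (Λ : (i : Fin (n + 1)) → ι i → Pol O r s 0)
    (d : Fin r → ℕ) (hdΦ : ∀ i, MHomog (Φ i) d) (hdΛ : ∀ i x, MHomog (Λ i x) d)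
    (t : (Σ i, ι i) → O) (i : Fin (n + 1)) : MHomog (mb Φ Λ t i) d :=
  mhomog_add (hdΦ i) (mhomog_sum _ (fun x => mhomog_C_mul (hdΛ i x) _))

theorem vl_mb {O A : Type} [CommRing O] [CommRing A] (φ : O →+* A) {r s n : ℕ}
    (Φ : Fin (n + 1) → Pol O r s 0)
    {ι : Fin (n + 1) → Type} [∀ i, Fintype (ι i)] (Λ : (i : Fin (n + 1)) → ι i → Pol O r s 0)
    (t : (Σ i, ι i) → O) (V : Fin r → Fin 3 → A) (u : Fin s → A) (T : Fin 0 → A)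
    (i : Fin (n + 1)) : vl φ (mb Φ Λ t i) V u T = zc φ Φ Λ V u t i := by
  have hT : T = Fin.elim0 := Subsingleton.elim _ _
  subst hT
  unfold mb zc
  rw [vl_add, vl_sum]
  simp only [vl_C_mul]

theorem ev_scale {O A : Type} [CommRing O] [CommRing A] (φ : O →+* A) {k e D : ℕ}
    (h : Fin (e + 1) → MvPolynomial (Fin k) O) (hh : ∀ i, (h i).IsHomogeneous D) (t : Fin k → A)
    (c : A) : ev φ h (fun j => c * t j) = fun i => c ^ D * ev φ h t i := by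
  funext i
  unfold ev
  rw [eval₂_eq', eval₂_eq', Finset.mul_sum]
  refine Finset.sum_congr rfl fun m hm => ?_
  have h1 : ∑ j, m j = D := by
    have := hh i (MvPolynomial.mem_support_iff.1 hm)
    rw [← this, Finsupp.weight_apply, Finsupp.sum_fintype]
    · simp
    · simp
  simp only [mul_pow]
  rw [Finset.prod_mul_distrib, Finset.prod_pow_eq_pow_sum, h1]
  ring

/-- one permutation -/
theorem frob_stepG (hFRBG : S_FRBG) (hSCL : S_SCL) {K : Type} [Field K] [NumberField K]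
    {N r s n e D : ℕ}
    (ω : Module.Basis (Fin N) ℤ (𝓞 K)) (a b : Fin r → ℤ)
    {h : Fin (e + 1) → MvPolynomial (Fin (n + 1)) (𝓞 K)} (hh : ∀ i, (h i).IsHomogeneous D)
    {𝒢 : Subgroup (Equiv.Perm (Fin e))} [Fintype 𝒢] (R : RG h 𝒢)
    (Φ : Fin (n + 1) → Pol (𝓞 K) r s 0)
    {ι : Fin (n + 1) → Type} [∀ i, Fintype (ι i)] (Λ : (i : Fin (n + 1)) → ι i → Pol (𝓞 K) r s 0)
    (d : Fin r → ℕ) (hdΦ : ∀ i, MHomog (Φ i) d) (hdΛ : ∀ i x, MHomog (Λ i x) d)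
    (S p₁ : ℕ) (hS : 1 ≤ S) (hp₁ : S + 1 ≤ p₁) (hm₁ : R.m < p₁)
    (σ : Equiv.Perm (Fin e)) (P : ∀ i, Pt (a i : K) (b i : K)) (u : Fin s → Kˣ)
    (hu : ∀ l, u l ∈ SUn K S) (c : (Σ i, ι i) × Fin N → ℤ)
    (hc : c ∉ BadHT ω a b R Φ Λ p₁ σ P u)
    (c₂ : Fin r → K) (hc₂ : ∀ i, c₂ i ≠ 0) :
    ∃ (x : Fin e → AlgebraicClosure K) (τ : AlgebraicClosure K ≃ₐ[K] AlgebraicClosure K),
      Roots (algebraMap K (AlgebraicClosure K)) (ev (algebraMap (𝓞 K) K) h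
        (zc (algebraMap (𝓞 K) K) Φ Λ (fun i j => c₂ i * rep (P i) j)
          (fun l => ((u l : Kˣ) : K)) (vecJ ω c))) x ∧
      Adm ((algebraMap K (AlgebraicClosure K)).comp (algebraMap (𝓞 K) K)) R
        (fun j => algebraMap K (AlgebraicClosure K)
          (zc (algebraMap (𝓞 K) K) Φ Λ (fun i j => c₂ i * rep (P i) j)
          (fun l => ((u l : Kˣ) : K)) (vecJ ω c) j))
        (fun i => algebraMap K (AlgebraicClosure K) (ev (algebraMap (𝓞 K) K) h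
          (zc (algebraMap (𝓞 K) K) Φ Λ (fun i j => c₂ i * rep (P i) j)
          (fun l => ((u l : Kˣ) : K)) (vecJ ω c)) (Fin.last e)) * x i) ∧
      ∀ i, τ (x i) = x (σ i) := by
  simp only [BadHT, Set.mem_ofPred_eq, not_forall, not_not] at hc
  obtain ⟨p, hpp, hp, h12, k, _, _, hcard, φ, hφ, w, hw, red, hred, Ω, _, _, _, _, hT⟩ := hc
  have hchk : CharP k p := charP_of_card hpp hcard
  have hmk : (R.m : k) ≠ 0 := by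
    intro h0
    have h1 := (CharP.cast_eq_zero_iff k p R.m).1 h0
    exact R.m_ne (Nat.eq_zero_of_dvd_of_lt h1 (by omega))
  choose c₁ hc₁0 hc₁ using fun i => t_R7 t_R1 K k w (a i) (b i) (red i) (hred i) (P i)
  have hsu : ∀ l, ((u l : Kˣ) : K) ∈ w.A := fun l =>
    (sun_place hpp hS (by omega) w (fun x => (hw x).1) (hu l)).1
  have hlv := fun i => loc_val w φ hw a b red P c₁ hc₁ (mb Φ Λ (vecJ ω c) i) d
    (mb_homog Φ Λ d hdΦ hdΛ (vecJ ω c) i)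
    (fun l => ((u l : Kˣ) : K)) hsu Fin.elim0
  have hm : (∏ i, c₁ i ^ d i) ≠ 0 := Finset.prod_ne_zero_iff.2 fun i _ => pow_ne_zero _ (hc₁0 i)
  have hm2 : (∏ i, c₂ i ^ d i) ≠ 0 := Finset.prod_ne_zero_iff.2 fun i _ => pow_ne_zero _ (hc₂ i)
  -- the integral coordinates
  set t₁ : Fin (n + 1) → K := fun i => (∏ j, c₁ j ^ d j) * zc (algebraMap (𝓞 K) K) Φ Λ
    (fun i => rep (P i)) (fun l => ((u l : Kˣ) : K)) (vecJ ω c) i with ht₁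
  have hlv' : ∀ i, t₁ i ∈ w.A ∧ w.r (t₁ i) = zc φ Φ Λ (fun i => rep (red i (P i)))
      (fun l => w.r (u l : K)) (vecJ ω c) i := by
    intro i
    have h1 := hlv i
    rw [vl_mb, vl_mb] at h1
    exact h1
  obtain ⟨x, τ, hx, hA, hτ⟩ := hFRBG K k w φ hφ hw Ω (n + 1) e h 𝒢 R t₁ _ σ hmk hlv' hT
  refine ⟨x, τ, ?_⟩
  set lam : K := (∏ i, c₂ i ^ d i) * (∏ i, c₁ i ^ d i)⁻¹ with hlam
  have hlam0 : lam ≠ 0 := mul_ne_zero hm2 (inv_ne_zero hm)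
  have ht₂ : zc (algebraMap (𝓞 K) K) Φ Λ (fun i j => c₂ i * rep (P i) j)
      (fun l => ((u l : Kˣ) : K)) (vecJ ω c) = fun j => lam * t₁ j := by
    rw [zc_scale _ Φ Λ d hdΦ hdΛ]
    funext j
    rw [ht₁, hlam]
    field_simp
  rw [ht₂, ev_scale _ h hh]
  refine ⟨roots_smul _ _ x _ (pow_ne_zero _ hlam0) hx, ?_, hτ⟩
  have hWi : Function.Injective (fun i => algebraMap K (AlgebraicClosure K)
      (ev (algebraMap (𝓞 K) K) h t₁ (Fin.last e)) * x i) := by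
    intro i j hij
    exact hx.2.1 (mul_left_cancel₀ ((map_ne_zero _).2 hx.1) hij)
  have h2 := hSCL (𝓞 K) (n + 1) e h 𝒢 R D hh (AlgebraicClosure K) _ _ _
    (algebraMap K (AlgebraicClosure K) lam) ((map_ne_zero _).2 hlam0) hWi hA
  convert h2 using 1
  · funext j
    rw [map_mul]
  · funext i
    rw [map_mul, map_pow, mul_assoc]

theorem badH_sub (hFRBG : S_FRBG) (hSCL : S_SCL) (hGRPG : S_GRPG) {K : Type} [Field K]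
    [NumberField K] {N r s n e D : ℕ}
    (ω : Module.Basis (Fin N) ℤ (𝓞 K)) (a b : Fin r → ℤ)
    (hab : ∀ i, a i * b i = 0 ∧ (a i ≠ 0 ∨ b i ≠ 0))
    {h : Fin (e + 1) → MvPolynomial (Fin (n + 1)) (𝓞 K)} (hh : ∀ i, (h i).IsHomogeneous D)
    {𝒢 : Subgroup (Equiv.Perm (Fin e))} [Fintype 𝒢] (R : RG h 𝒢)
    (Φ : Fin (n + 1) → Pol (𝓞 K) r s 0)
    {ι : Fin (n + 1) → Type} [∀ i, Fintype (ι i)] (Λ : (i : Fin (n + 1)) → ι i → Pol (𝓞 K) r s 0)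
    (d : Fin r → ℕ) (hdΦ : ∀ i, MHomog (Φ i) d) (hdΛ : ∀ i x, MHomog (Λ i x) d)
    (S p₁ : ℕ) (hS : 1 ≤ S) (hp₁ : S + 1 ≤ p₁) (hm₁ : R.m < p₁) :
    BadH ω a b h 𝒢 Φ Λ S ⊆ ⋃ σ : 𝒢,
      {c | ∃ (P : ∀ i, Pt (a i : K) (b i : K)) (u : Fin s → Kˣ), (∀ l, u l ∈ SUn K S) ∧
        c ∈ BadHT ω a b R Φ Λ p₁ σ.1 P u} := by
  rintro c ⟨V, u, hV, hu, hng⟩
  have hdisc := disc_ne hab
  have hdL : ∀ i, Disc (a i : K) (b i : K) := fun i =>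
    FD.disc_of two_ne_zero (by exact_mod_cast hdisc i)
  choose P c₂ hc0 hc2 using fun i => t_PTSK K (a i) (b i) (V i) (hdL i) (hV i)
  have hVP : V = fun i j => c₂ i * rep (P i) j := by
    funext i j
    exact hc2 i j
  by_contra hcon
  rw [Set.mem_iUnion] at hcon
  push Not at hcon
  apply hng
  refine hGRPG K (n + 1) e h 𝒢 R _ (fun σ hσ => ?_)
  rw [hVP]
  exact frob_stepG hFRBG hSCL ω a b hh R Φ Λ d hdΦ hdΛ S p₁ hS hp₁ hm₁ σ P u hu c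
    (fun h => hcon ⟨σ, hσ⟩ ⟨P, u, hu, h⟩) c₂ hc0

theorem mainHG (hTRG : S_TRG) (hFCHG : S_FCHG) (hLIN1 : S_LIN1) (hTSA : S_TSA)
    (hFRBG : S_FRBG) (hSCL : S_SCL) (hGRPG : S_GRPG) (hSUF : S_SUF)
    (K : Type) [Field K] [NumberField K] (N : ℕ) (ω : Module.Basis (Fin N) ℤ (𝓞 K))
    (r s n e D : ℕ) (a b : Fin r → ℤ) (hab : ∀ i, a i * b i = 0 ∧ (a i ≠ 0 ∨ b i ≠ 0))
    (h : Fin (e + 1) → MvPolynomial (Fin (n + 1)) (𝓞 K)) (hh : ∀ i, (h i).IsHomogeneous D)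
    (𝒢 : Subgroup (Equiv.Perm (Fin e))) [Fintype 𝒢] (R : RG h 𝒢)
    (Di : MvPolynomial (Fin (e + 1)) ℤ) (hDi : IsDisc Di)
    (σ₀ : K →+* ℂ) (hC : CndG (toC σ₀) R Di) (Φ : Fin (n + 1) → Pol (𝓞 K) r s 0)
    (ι : Fin (n + 1) → Type) [∀ i, Fintype (ι i)] (Λ : (i : Fin (n + 1)) → ι i → Pol (𝓞 K) r s 0)
    (d : Fin r → ℕ) (hdΦ : ∀ i, MHomog (Φ i) d) (hdΛ : ∀ i x, MHomog (Λ i x) d)
    (hbp : ∀ i (V : Fin r → Fin 3 → ℂ) (u : Fin s → ℂ), OnB a b V u →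
      ∃ x, vl (toC σ₀) (Λ i x) V u Fin.elim0 ≠ 0) (S : ℕ) (hS : 1 ≤ S) :
    ∃ c₀ : ℝ, 0 < c₀ ∧ ∃ H₀ : ℕ, ∀ H : ℕ, H₀ ≤ H →
      (({c : (Σ i, ι i) × Fin N → ℤ | (∀ i, |c i| ≤ (H : ℤ)) ∧
        c ∈ BadH ω a b h 𝒢 Φ Λ S}.ncard : ℕ) : ℝ) ≤
        (2 * (H : ℝ) + 1) ^ (Fintype.card (Σ i, ι i) * N) *
          Real.exp (-c₀ * (Real.log H / Real.log (Real.log H))) := by
  obtain ⟨p₁, hp₁, hm₁, hloc⟩ := locS_hg_all hTRG hFCHG hLIN1 hTSA K r s n e a b R Di hDi σ₀ hC Φ ι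
    Λ hbp (SUn K S) (S + 1)
  have hcp : 0 < Fintype.card 𝒢 := Fintype.card_pos
  have hδ : (0 : ℝ) < 1 / ((2 * Fintype.card 𝒢 : ℕ) : ℝ) := by
    have : (0 : ℝ) < ((2 * Fintype.card 𝒢 : ℕ) : ℝ) := by exact_mod_cast (by omega)
    positivity
  have hδ1 : 1 / ((2 * Fintype.card 𝒢 : ℕ) : ℝ) < 1 := by
    have h1 : (1 : ℝ) < ((2 * Fintype.card 𝒢 : ℕ) : ℝ) := by exact_mod_cast (by omega)
    rw [div_lt_one (by linarith)]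
    exact h1
  refine union_bound (I := 𝒢) (fun (c : (Σ i, ι i) × Fin N → ℤ) (H : ℕ) =>
    ∀ i, |c i| ≤ (H : ℤ)) (fun H => boxJ_finite H) (Fintype.card (Σ i, ι i) * N)
    (fun σ => {c | ∃ (P : ∀ i, Pt (a i : K) (b i : K)) (u : Fin s → Kˣ), (∀ l, u l ∈ SUn K S) ∧
        c ∈ BadHT ω a b R Φ Λ p₁ σ.1 P u}) (fun σ => ?_) (BadH ω a b h 𝒢 Φ Λ S)
    (badH_sub hFRBG hSCL hGRPG ω a b hab hh R Φ Λ d hdΦ hdΛ S p₁ hS hp₁ hm₁)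
  exact step1 K a b hab (SUn K S) (hSUF K S hS) (Σ i, ι i) N ω _ hδ hδ1 p₁
    (BadHT ω a b R Φ Λ p₁ σ.1) (hloc N ω σ.1 σ.2)

/-- one exceptional set for all `S` -/
theorem uniHG {K : Type} [Field K] [NumberField K] {N r s n e : ℕ}
    (ω : Module.Basis (Fin N) ℤ (𝓞 K)) (a b : Fin r → ℤ)
    (h : Fin (e + 1) → MvPolynomial (Fin (n + 1)) (𝓞 K)) (𝒢 : Subgroup (Equiv.Perm (Fin e)))
    (Φ : Fin (n + 1) → Pol (𝓞 K) r s 0)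
    (ι : Fin (n + 1) → Type) [∀ i, Fintype (ι i)] (Λ : (i : Fin (n + 1)) → ι i → Pol (𝓞 K) r s 0)
    (hM : ∀ S : ℕ, 1 ≤ S → ∃ c₀ : ℝ, 0 < c₀ ∧ ∃ H₀ : ℕ, ∀ H : ℕ, H₀ ≤ H →
      (({c : (Σ i, ι i) × Fin N → ℤ | (∀ i, |c i| ≤ (H : ℤ)) ∧
        c ∈ BadH ω a b h 𝒢 Φ Λ S}.ncard : ℕ) : ℝ) ≤
        (2 * (H : ℝ) + 1) ^ (Fintype.card (Σ i, ι i) * N) *
          Real.exp (-c₀ * (Real.log H / Real.log (Real.log H)))) :
    ∃ E : Set ((Σ i, ι i) × Fin N → ℤ),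
      (∃ H₀ : ℕ, ∀ H : ℕ, H₀ ≤ H → (({c : (Σ i, ι i) × Fin N → ℤ |
        (∀ i, |c i| ≤ (H : ℤ)) ∧ c ∈ E}.ncard : ℕ) : ℝ) ≤
        (2 * (H : ℝ) + 1) ^ (Fintype.card (Σ i, ι i) * N) *
          Real.exp (-(Real.log H / Real.log (Real.log H) ^ 2))) ∧
      ∀ S : ℕ, 1 ≤ S → (BadH ω a b h 𝒢 Φ Λ S \ E).Finite := by
  classical
  obtain ⟨E, hE1, hE2⟩ := diag (X := (Σ i, ι i) × Fin N → ℤ) (I := {S : ℕ // 1 ≤ S})
    (fun (c : (Σ i, ι i) × Fin N → ℤ) (H : ℕ) => ∀ i, |c i| ≤ (H : ℤ))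
    (fun c H H' h hc i => (hc i).trans (by exact_mod_cast h))
    (fun H => boxJ_finite H) (Fintype.card (Σ i, ι i) * N)
    (fun S => BadH ω a b h 𝒢 Φ Λ S.1) (fun S => hM S.1 S.2)
  exact ⟨E, hE1, fun S hS => hE2 ⟨S, hS⟩⟩

end Pool.Agent.N89.HG
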