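import Pool.Agent.N89.HG.Stm
import Pool.Agent.N89.HL.Uni

/-! Project HG (helper89): the sieve. -/

set_option autoImplicit false

namespace Pool.Agent.N89.HG

open MvPolynomial NumberField Pool.Agent.H901R3.MS Pool.Agent.W659 Pool.Agent.W659.SA
  Pool.Agent.N89.GS Pool.Agent.N89.BD Pool.Agent.N89.HX Pool.Agent.N89.HL WeierstrassCurve

/-- the vectors `c` such that for some `S`-integral point of `G` over `K` the Galois group of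
`h(φ_c(P); X)` is not `𝒢` -/
def BadH {K : Type} [Field K] [NumberField K] {N r s n e : ℕ}
    (ω : Module.Basis (Fin N) ℤ (𝓞 K)) (a b : Fin r → ℤ)
    (h : Fin (e + 1) → MvPolynomial (Fin (n + 1)) (𝓞 K)) (𝒢 : Subgroup (Equiv.Perm (Fin e)))
    (Φ : Fin (n + 1) → Pol (𝓞 K) r s 0)
    {ι : Fin (n + 1) → Type} [∀ i, Fintype (ι i)] (Λ : (i : Fin (n + 1)) → ι i → Pol (𝓞 K) r s 0)
    (S : ℕ) : Set ((Σ i, ι i) × Fin N → ℤ) :=
  {c | ∃ (V : Fin r → Fin 3 → K) (u : Fin s → Kˣ), (∀ i, FD.OnE (a i) (b i) (V i)) ∧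
    (∀ l, u l ∈ SUn K S) ∧ ¬ GalIs (ev (algebraMap (𝓞 K) K) h
      (zc (algebraMap (𝓞 K) K) Φ Λ V (fun l => ((u l : Kˣ) : K)) (vecJ ω c))) 𝒢}

/-- the vectors `c` such that for no good place the Frobenius acts on the roots like `σ` -/
def BadHT {K : Type} [Field K] [NumberField K] {N r s n e : ℕ}
    (ω : Module.Basis (Fin N) ℤ (𝓞 K)) (a b : Fin r → ℤ)
    {h : Fin (e + 1) → MvPolynomial (Fin (n + 1)) (𝓞 K)} {𝒢 : Subgroup (Equiv.Perm (Fin e))}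
    [Fintype 𝒢] (R : RG h 𝒢) (Φ : Fin (n + 1) → Pol (𝓞 K) r s 0)
    {ι : Fin (n + 1) → Type} [∀ i, Fintype (ι i)] (Λ : (i : Fin (n + 1)) → ι i → Pol (𝓞 K) r s 0)
    (p₁ : ℕ) (σ : Equiv.Perm (Fin e))
    (P : ∀ i, Pt (a i : K) (b i : K)) (u : Fin s → Kˣ) : Set ((Σ i, ι i) × Fin N → ℤ) :=
  {c | ∀ p : ℕ, p.Prime → p₁ ≤ p → 12 ∣ p + 1 → ∀ (k : Type) [Field k] [Fintype k],
    (Fintype.card k = p ∨ Fintype.card k = p ^ 2) → ∀ φ : 𝓞 K →+* k,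
    Function.Surjective φ → ∀ w : Place K k,
    (∀ x : 𝓞 K, (x : K) ∈ w.A ∧ w.r (x : K) = φ x) →
    ∀ red : (∀ i, Pt (a i : K) (b i : K) → Pt (a i : k) (b i : k)),
    (∀ i, IsRed w (a i) (b i) (red i)) →
    ∀ (Ω : Type) [Field Ω] [IsAlgClosed Ω] [Algebra k Ω] [Algebra.IsAlgebraic k Ω],
      ¬ HasTypeG Ω φ R (zc φ Φ Λ (fun i => rep (red i (P i))) (fun l => w.r (u l : K))
        (vecJ ω c)) σ}

theorem compl_bound {Y : Type} [Finite Y] (T : Set Y) (D Q : ℕ) (hD : 1 ≤ D)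
    (hQ : Nat.card Y = Q) (h : Q ≤ D * T.ncard) :
    (((Tᶜ).ncard : ℕ) : ℝ) ≤ (1 - 1 / (D : ℝ)) * (Q : ℝ) := by
  have hc := Set.ncard_add_ncard_compl T (Set.toFinite _) (Set.toFinite _)
  rw [hQ] at hc
  have h1 : (T.ncard : ℝ) + (Tᶜ.ncard : ℝ) = (Q : ℝ) := by exact_mod_cast hc
  have h2 : (Q : ℝ) ≤ (D : ℝ) * T.ncard := by exact_mod_cast h
  have h3 : (0 : ℝ) < D := by exact_mod_cast hD
  have h4 : (Q : ℝ) / D ≤ T.ncard := by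
    rw [div_le_iff₀ h3]
    linarith
  have h5 : (1 - 1 / (D : ℝ)) * (Q : ℝ) = Q - Q / D := by ring
  rw [h5]
  linarith

theorem zc_eq_zf {O k : Type} [CommRing O] [Field k] (φ : O →+* k)
    {r s n : ℕ} (Φ : Fin (n + 1) → Pol O r s 0) {ι : Fin (n + 1) → Type} [∀ i, Fintype (ι i)]
    (Λ : (i : Fin (n + 1)) → ι i → Pol O r s 0) (V : Fin r → Fin 3 → k) (u : Fin s → k)
    (t : (Σ i, ι i) → O) : zc φ Φ Λ V u t = zf (F := k) φ Φ Λ V u (fun j => φ (t j)) := by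
  funext i
  unfold zc zf
  rfl

/-- the local sets exist -/
theorem locS_hg {K : Type} [Field K] [NumberField K] {N r s n e : ℕ}
    (ω : Module.Basis (Fin N) ℤ (𝓞 K)) (a b : Fin r → ℤ)
    {h : Fin (e + 1) → MvPolynomial (Fin (n + 1)) (𝓞 K)} {𝒢 : Subgroup (Equiv.Perm (Fin e))}
    [Fintype 𝒢] (R : RG h 𝒢) (Φ : Fin (n + 1) → Pol (𝓞 K) r s 0)
    {ι : Fin (n + 1) → Type} [∀ i, Fintype (ι i)] (Λ : (i : Fin (n + 1)) → ι i → Pol (𝓞 K) r s 0)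
    (Γ : Subgroup Kˣ) (p₁ : ℕ) (σ : Equiv.Perm (Fin e))
    {p : ℕ} (hpp : p.Prime) (hp : p₁ ≤ p) (h12 : 12 ∣ p + 1)
    {k : Type} [Field k] [Fintype k] (hcard : Fintype.card k = p ∨ Fintype.card k = p ^ 2)
    {φ : 𝓞 K →+* k} (hφ : Function.Surjective φ)
    {w : Place K k} (hw : ∀ x : 𝓞 K, (x : K) ∈ w.A ∧ w.r (x : K) = φ x)
    {red : ∀ i, Pt (a i : K) (b i : K) → Pt (a i : k) (b i : k)}
    (hred : ∀ i, IsRed w (a i) (b i) (red i))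
    (Ω : Type) [Field Ω] [IsAlgClosed Ω] [Algebra k Ω] [Algebra.IsAlgebraic k Ω]
    (hloc : ∀ (x : ∀ i, Pt (a i : k) (b i : k)) (y : Fin s → k), (∀ l, y l ≠ 0) →
      Fintype.card k ^ Fintype.card (Σ i, ι i) ≤ 2 * Fintype.card 𝒢 *
      {t : (Σ i, ι i) → k | HasTypeG Ω φ R (zf (F := k) φ Φ Λ (fun i => rep (x i)) y t) σ}.ncard) :
    LocS K a b Γ (Σ i, ι i) ω (1 / ((2 * Fintype.card 𝒢 : ℕ) : ℝ)) (BadHT ω a b R Φ Λ p₁ σ)
      k φ w red := by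
  classical
  refine ⟨fun x y => {t | ¬ HasTypeG Ω φ R (zf (F := k) φ Φ Λ (fun i => rep (x i)) y t) σ},
    ?_, ?_⟩
  · intro x y hy
    have h1 := compl_bound {t : (Σ i, ι i) → k | HasTypeG Ω φ R (zf (F := k) φ Φ Λ
      (fun i => rep (x i)) y t) σ} (2 * Fintype.card 𝒢)
      (Fintype.card k ^ Fintype.card (Σ i, ι i)) (by
        have : 0 < Fintype.card 𝒢 := Fintype.card_pos
        omega) (by rw [Nat.card_eq_fintype_card, Fintype.card_fun]) (hloc x y hy)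
    push_cast at h1 ⊢
    exact h1
  · intro P u _ _ c hc
    have h1 := hc p hpp hp h12 k hcard φ hφ w hw red hred Ω
    rw [zc_eq_zf] at h1
    exact h1

theorem bpf_iff {O k : Type} [CommRing O] [Field k] (φ : O →+* k) {r s : ℕ} (a b : Fin r → ℤ)
    {ι : Type} (Λ : ι → Pol O r s 0) :
    SepAll φ a b (Fin.elim0 : Fin 0 → Pol O r s 1) (fun x => ren (Λ x)) 1 ↔
      ∀ (V : Fin r → Fin 3 → k) (u : Fin s → k), OnB a b V u →
        ∃ x, vl φ (Λ x) V u Fin.elim0 ≠ 0 := by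
  constructor
  · intro h V u hV
    have h1 := h 1 le_rfl (fun _ => V) (fun _ => u) (fun _ => fun _ => 1)
      (fun _ => hV) (fun _ => ⟨fun h0 => one_ne_zero (congrFun h0 0), fun e => e.elim0⟩)
      (fun i j hij => absurd (Subsingleton.elim i j) hij)
    have h2 := h1.ne_zero 0
    simp only [vl_ren] at h2
    obtain ⟨x, hx⟩ := Function.ne_iff.1 h2
    exact ⟨x, hx⟩
  · rintro h1 l hl V u T hV hT hne
    simp only [vl_ren]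
    interval_cases l
    · exact linearIndependent_empty_type
    · rw [linearIndependent_unique_iff]
      obtain ⟨x, hx⟩ := h1 (V 0) (u 0) (hV 0)
      intro h0
      exact hx (congrFun h0 x)

theorem trans1 (hTSA : S_TSA) (K : Type) [Field K] [NumberField K] {r s n : ℕ} (a b : Fin r → ℤ)
    {ι : Fin n → Type} [∀ i, Fintype (ι i)] (Λ : (i : Fin n) → ι i → Pol (𝓞 K) r s 0)
    (σ₀ : K →+* ℂ) (h : ∀ i (V : Fin r → Fin 3 → ℂ) (u : Fin s → ℂ), OnB a b V u →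
      ∃ x, vl (toC σ₀) (Λ i x) V u Fin.elim0 ≠ 0) :
    ∃ p₂ : ℕ, ∀ p : ℕ, p.Prime → p₂ ≤ p → ∀ (k : Type) [Field k] [CharP k p]
      (φ : 𝓞 K →+* k), ∀ i (V : Fin r → Fin 3 → k) (u : Fin s → k), OnB a b V u →
      ∃ x, vl φ (Λ i x) V u Fin.elim0 ≠ 0 := by
  have h1 : ∀ i, ∃ p₁ : ℕ, ∀ p : ℕ, p.Prime → p₁ ≤ p → ∀ (k : Type) [Field k] [CharP k p]
      (φ : 𝓞 K →+* k), ∀ (V : Fin r → Fin 3 → k) (u : Fin s → k), OnB a b V u →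
      ∃ x, vl φ (Λ i x) V u Fin.elim0 ≠ 0 := by
    intro i
    obtain ⟨p₁, hp₁⟩ := hTSA K r s 1 0 a b Fin.elim0 (ι i) (fun x => ren (Λ i x)) 1 σ₀
      ((bpf_iff (toC σ₀) a b (Λ i)).2 (h i))
    exact ⟨p₁, fun p hp hpp k _ _ φ => (bpf_iff φ a b (Λ i)).1 (hp₁ p hp hpp k φ)⟩
  choose p₁ hp₁ using h1
  refine ⟨∑ i, p₁ i, fun p hp hpp k _ _ φ i => hp₁ i p hp (le_trans ?_ hpp) k φ⟩
  exact Finset.single_le_sum (f := p₁) (fun _ _ => Nat.zero_le _) (Finset.mem_univ i)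

/-- the hypothesis on the resolvent in characteristic zero -/
def CndG {O : Type} [CommRing O] (φ : O →+* ℂ) {k e : ℕ}
    {h : Fin (e + 1) → MvPolynomial (Fin k) O} {𝒢 : Subgroup (Equiv.Perm (Fin e))} [Fintype 𝒢]
    (R : RG h 𝒢) (D : MvPolynomial (Fin (e + 1)) ℤ) : Prop :=
  ∃ (y v : Fin k → ℂ) (ω : Fin e → ℂ),
    MvPolynomial.aeval (ev ((Polynomial.C : ℂ →+* Polynomial ℂ).comp φ) h (pt y v)) D ≠ 0 ∧
    Irreducible (rg ((Polynomial.C : ℂ →+* Polynomial ℂ).comp φ) R.R (pt y v)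
      (fun i => Polynomial.C (ω i)))

theorem locS_hg_all (hTRG : S_TRG) (hFCHG : S_FCHG) (hLIN1 : S_LIN1) (hTSA : S_TSA)
    (K : Type) [Field K] [NumberField K] (r s n e : ℕ) (a b : Fin r → ℤ)
    {h : Fin (e + 1) → MvPolynomial (Fin (n + 1)) (𝓞 K)} {𝒢 : Subgroup (Equiv.Perm (Fin e))}
    [Fintype 𝒢] (R : RG h 𝒢) (D : MvPolynomial (Fin (e + 1)) ℤ) (hD : IsDisc D)
    (σ₀ : K →+* ℂ) (hC : CndG (toC σ₀) R D) (Φ : Fin (n + 1) → Pol (𝓞 K) r s 0)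
    (ι : Fin (n + 1) → Type) [∀ i, Fintype (ι i)] (Λ : (i : Fin (n + 1)) → ι i → Pol (𝓞 K) r s 0)
    (hbp : ∀ i (V : Fin r → Fin 3 → ℂ) (u : Fin s → ℂ), OnB a b V u →
      ∃ x, vl (toC σ₀) (Λ i x) V u Fin.elim0 ≠ 0) (Γ : Subgroup Kˣ) (P₀ : ℕ) :
    ∃ p₁ : ℕ, P₀ ≤ p₁ ∧ R.m < p₁ ∧ ∀ (N : ℕ) (ω : Module.Basis (Fin N) ℤ (𝓞 K)), ∀ σ ∈ 𝒢,
      ∀ p : ℕ, p.Prime → p₁ ≤ p → 12 ∣ p + 1 → ∀ (k : Type) [Field k] [Fintype k],
          (Fintype.card k = p ∨ Fintype.card k = p ^ 2) → ∀ φ : 𝓞 K →+* k,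
          Function.Surjective φ → ∀ w : Place K k,
          (∀ x : 𝓞 K, (x : K) ∈ w.A ∧ w.r (x : K) = φ x) →
          ∀ red : (∀ i, Pt (a i : K) (b i : K) → Pt (a i : k) (b i : k)),
          (∀ i, IsRed w (a i) (b i) (red i)) →
          LocS K a b Γ (Σ i, ι i) ω (1 / ((2 * Fintype.card 𝒢 : ℕ) : ℝ))
            (BadHT ω a b R Φ Λ p₁ σ) k φ w red := by
  obtain ⟨y, v, ω₀, hC1, hC2⟩ := hC
  obtain ⟨p₂, hp₂⟩ := hTRG K (n + 1) e h 𝒢 R D (toC σ₀) y v ω₀ hC1 hC2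
  obtain ⟨q₀, hq₀⟩ := hFCHG (𝓞 K) (n + 1) e h 𝒢 R D hD
  obtain ⟨p₃, hp₃⟩ := trans1 hTSA K a b Λ σ₀ hbp
  refine ⟨P₀ + p₂ + q₀ + p₃ + R.m + 1, by omega, by omega, ?_⟩
  intro N ω σ hσ p hpp hp h12 k _ _ hcard φ hφ w hw red hred
  have hchk : CharP k p := charP_of_card hpp hcard
  have hgen : ∀ (Ω : Type) [Field Ω] [IsAlgClosed Ω] [Algebra k Ω] [Algebra.IsAlgebraic k Ω],
      LocS K a b Γ (Σ i, ι i) ω (1 / ((2 * Fintype.card 𝒢 : ℕ) : ℝ))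
            (BadHT ω a b R Φ Λ (P₀ + p₂ + q₀ + p₃ + R.m + 1) σ) k φ w red := by
    intro Ω _ _ _ _
    have hch : CharP Ω p := charP_of_injective_algebraMap (algebraMap k Ω).injective p
    have hr : q₀ ≤ ringChar k := by
      rw [ringChar.eq k p]
      omega
    have h1 := hq₀ k Ω φ hr (hp₂ p hpp (by omega) Ω ((algebraMap k Ω).comp φ)) σ hσ
    refine locS_hg ω a b R Φ Λ Γ _ σ hpp hp h12 hcard hφ hw hred Ω (fun x y hy => ?_)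
    exact cnt_zf (F := k) φ Φ Λ (fun i => rep (x i)) y 1 (by rw [pow_one])
      (fun i z => one_cnt hLIN1 rfl _ z (hp₃ p hpp (by omega) k φ i (fun i => rep (x i)) y
        ⟨fun i => FD.onE_rep _, hy⟩)) {z | HasTypeG Ω φ R z σ} _ h1
  exact hgen (AlgebraicClosure k)

end Pool.Agent.N89.HG
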