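import Pool.Agent.N89.HG.Asm2
import Pool.Agent.N403.BD.SUF
import Pool.Agent.N519.BD.TSA
import Pool.Agent.N712.GS.LIN

/-! Project HG (helper89): everything put together, except the tasks. -/

set_option autoImplicit false

namespace Pool.Agent.N89.HG

open MvPolynomial NumberField Pool.Agent.H901R3.MS Pool.Agent.W659 Pool.Agent.W659.SA
  Pool.Agent.N89.GS Pool.Agent.N89.BD Pool.Agent.N89.HX Pool.Agent.N89.HL WeierstrassCurve

theorem finHG' (hEXR : S_EXR) (hDSC : S_DSC) (hGEOG : S_GEOG) (hTRG : S_TRG) (hFCHG : S_FCHG)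
    (hFRBG : S_FRBG) (hSCL : S_SCL) (hGRPG : S_GRPG)
    (K : Type) [Field K] [NumberField K] (N : ℕ) (ω : Module.Basis (Fin N) ℤ (𝓞 K))
    (r s n e D : ℕ) (a b : Fin r → ℤ) (hab : ∀ i, a i * b i = 0 ∧ (a i ≠ 0 ∨ b i ≠ 0))
    (h : Fin (e + 1) → MvPolynomial (Fin (n + 1)) (𝓞 K)) (hh : ∀ i, (h i).IsHomogeneous D)
    (𝒢 : Subgroup (Equiv.Perm (Fin e)))
    (h1 : GalIs (fun i => algebraMap (MvPolynomial (Fin (n + 1)) (𝓞 K))
      (FractionRing (MvPolynomial (Fin (n + 1)) (𝓞 K))) (h i)) 𝒢)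
    (σ₀ : K →+* ℂ) (y v : Fin (n + 1) → ℂ)
    (h2 : GalIs (ev ((RatFunc.C : ℂ →+* RatFunc ℂ).comp (toC σ₀)) h
      (fun j => RatFunc.C (y j) + RatFunc.C (v j) * RatFunc.X)) 𝒢)
    (Φ : Fin (n + 1) → Pol (𝓞 K) r s 0)
    (ι : Fin (n + 1) → Type) [∀ i, Fintype (ι i)] (Λ : (i : Fin (n + 1)) → ι i → Pol (𝓞 K) r s 0)
    (d : Fin r → ℕ) (hdΦ : ∀ i, MHomog (Φ i) d) (hdΛ : ∀ i x, MHomog (Λ i x) d)
    (hbp : ∀ i (V : Fin r → Fin 3 → ℂ) (u : Fin s → ℂ), OnB a b V u →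
      ∃ x, vl (toC σ₀) (Λ i x) V u Fin.elim0 ≠ 0) :
    (∀ S : ℕ, 1 ≤ S → ∃ c₀ : ℝ, 0 < c₀ ∧ ∃ H₀ : ℕ, ∀ H : ℕ, H₀ ≤ H →
      (({c : (Σ i, ι i) × Fin N → ℤ | (∀ i, |c i| ≤ (H : ℤ)) ∧
        c ∈ BadH ω a b h 𝒢 Φ Λ S}.ncard : ℕ) : ℝ) ≤
        (2 * (H : ℝ) + 1) ^ (Fintype.card (Σ i, ι i) * N) *
          Real.exp (-c₀ * (Real.log H / Real.log (Real.log H)))) ∧
    ∃ E : Set ((Σ i, ι i) × Fin N → ℤ),
      (∃ H₀ : ℕ, ∀ H : ℕ, H₀ ≤ H → (({c : (Σ i, ι i) × Fin N → ℤ |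
        (∀ i, |c i| ≤ (H : ℤ)) ∧ c ∈ E}.ncard : ℕ) : ℝ) ≤
        (2 * (H : ℝ) + 1) ^ (Fintype.card (Σ i, ι i) * N) *
          Real.exp (-(Real.log H / Real.log (Real.log H) ^ 2))) ∧
      ∀ S : ℕ, 1 ≤ S → (BadH ω a b h 𝒢 Φ Λ S \ E).Finite := by
  classical
  have : Fintype 𝒢 := Fintype.ofFinite _
  obtain ⟨x, hx, hx'⟩ := h1
  obtain ⟨R⟩ := hEXR K (n + 1) e h 𝒢 x hx (fun τ => by
    have hK : ∃ σ : Equiv.Perm (Fin e), ∀ i, τ (x i) = x (σ i) := by
      -- automorphisms permute the roots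
      have hroot : ∀ i, ∃ j, τ (x i) = x j := by
        intro i
        have h3 := hx.2.2
        have h4 := congrArg (Polynomial.eval (x i)) h3
        rw [Polynomial.eval_mul, Polynomial.eval_prod, Finset.prod_eq_zero (Finset.mem_univ i)
          (by simp), mul_zero] at h4
        have h5 : Polynomial.eval (τ (x i)) ((pol (fun i => algebraMap
            (MvPolynomial (Fin (n + 1)) (𝓞 K))
            (FractionRing (MvPolynomial (Fin (n + 1)) (𝓞 K))) (h i))).map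
            (algebraMap (FractionRing (MvPolynomial (Fin (n + 1)) (𝓞 K)))
              (AlgebraicClosure (FractionRing (MvPolynomial (Fin (n + 1)) (𝓞 K)))))) = 0 := by
          rw [Polynomial.eval_map_algebraMap] at h4 ⊢
          have h6 := Polynomial.aeval_algHom_apply
            (τ : AlgebraicClosure (FractionRing (MvPolynomial (Fin (n + 1)) (𝓞 K)))
            →ₐ[FractionRing (MvPolynomial (Fin (n + 1)) (𝓞 K))]
            AlgebraicClosure (FractionRing (MvPolynomial (Fin (n + 1)) (𝓞 K)))) (x i)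
            (pol (fun i => algebraMap (MvPolynomial (Fin (n + 1)) (𝓞 K))
            (FractionRing (MvPolynomial (Fin (n + 1)) (𝓞 K))) (h i)))
          rw [h4, map_zero] at h6
          exact h6
        rw [h3, Polynomial.eval_mul, Polynomial.eval_C, Polynomial.eval_prod] at h5
        rcases mul_eq_zero.1 h5 with h6 | h6
        · exact absurd h6 ((map_ne_zero _).2 hx.1)
        · obtain ⟨j, -, hj⟩ := Finset.prod_eq_zero_iff.1 h6
          rw [Polynomial.eval_sub, Polynomial.eval_X, Polynomial.eval_C, sub_eq_zero] at hj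
          exact ⟨j, hj⟩
      choose f hf using hroot
      have hfi : Function.Injective f := by
        intro i j hij
        apply hx.2.1
        apply τ.injective
        rw [hf, hf, hij]
      exact ⟨Equiv.ofBijective f (Finite.injective_iff_bijective.1 hfi), fun i => hf i⟩
    obtain ⟨σ, hσ⟩ := hK
    exact ⟨σ, (hx' σ).2 ⟨τ, hσ⟩, hσ⟩)
  obtain ⟨Di, hDi⟩ := hDSC e
  obtain ⟨z, hz, hz'⟩ := h2
  have hev : ev ((RatFunc.C : ℂ →+* RatFunc ℂ).comp (toC σ₀)) h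
      (fun j => RatFunc.C (y j) + RatFunc.C (v j) * RatFunc.X) =
      fun i => algebraMap (Polynomial ℂ) (RatFunc ℂ)
        (ev ((Polynomial.C : ℂ →+* Polynomial ℂ).comp (toC σ₀)) h (pt y v) i) := by
    funext i
    unfold ev
    rw [hom_eval₂]
    have e1 : (RatFunc.C : ℂ →+* RatFunc ℂ).comp (toC σ₀) =
        (algebraMap (Polynomial ℂ) (RatFunc ℂ)).comp
          ((Polynomial.C : ℂ →+* Polynomial ℂ).comp (toC σ₀)) := by
      refine RingHom.ext fun x => ?_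
      rw [RingHom.comp_apply, RingHom.comp_apply, RingHom.comp_apply, RatFunc.algebraMap_C]
    have e2 : (fun j => RatFunc.C (y j) + RatFunc.C (v j) * RatFunc.X) =
        (algebraMap (Polynomial ℂ) (RatFunc ℂ)) ∘ pt y v := by
      funext j
      simp [pt, RatFunc.algebraMap_C, RatFunc.algebraMap_X]
    rw [e1, e2]
    rfl
  rw [hev] at hz
  have hg := hGEOG (𝓞 K) (n + 1) e h 𝒢 R Di (toC σ₀) y v z hDi hz
    (fun σ hσ => (hz' σ).1 hσ)
  have hC : CndG (toC σ₀) R Di := by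
    obtain ⟨hg1, ω₀, hg2⟩ := hg
    exact ⟨y, v, ω₀, hg1, hg2⟩
  have hm := fun S hS => mainHG hTRG hFCHG Pool.Agent.N712.GS.mainLIN1
    Pool.Agent.N519.BD.TSA.main hFRBG hSCL hGRPG Pool.Agent.N403.BDSUF.main K N ω r s n e D a b hab
    h hh 𝒢 R Di hDi σ₀ hC Φ ι Λ d hdΦ hdΛ hbp S hS
  exact ⟨hm, uniHG ω a b h 𝒢 Φ ι Λ hm⟩

end Pool.Agent.N89.HG
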